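import Pool.Agent.TH133.XT.Main

/-!
# MP_5968e7_ag: one number field, the unit object and simple objects of weight at most zero

Fix a prime `ℓ`. Let `A = C_{ℚ,ℓ}` be the category of mixed `ℓ`-adic representations of the Galois
group of `ℚ` which are potentially semistable at `ℓ`, and let `B = C_{k,ℓ}` for a number field `k`.

* `A` is a rigid abelian tensor category in which all objects have finite length.
* Restriction `R : A ⥤ B` and induction `I : B ⥤ A` are exact, the natural maps `I(R(V)) ⟶ V` (the
  counit) and `R(I(W)) ⟶ W` (the value at `1`) have sections (`HasTransfer`).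
* Let `T V` mean that `V` has weights `≤ 0` and `F V` that `V` has weights `> 0`. By the weight
  filtration this is a weight cut (`IsWeightCut`), and the unit object satisfies `T`.

The theorem, for `m = 2`: all the groups `Ext ^ ν(V, W)`, `ν ≥ 2`, in `C_{k,ℓ}` vanish if and only if
this is true in `C_{ℚ,ℓ}`, if and only if `Ext ^ 2(1, V) = 0` in `C_{ℚ,ℓ}` for all irreducible `V` of
weight `≤ 0`. So, for given `ℓ`, Q1 for one number field `k` is equivalent to Q1 for all number
fields (`Ext ^ 1` is never identically zero: classes of Kummer extensions).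
-/

open CategoryTheory Limits Abelian MonoidalCategory

universe w v u w' v' u'

namespace Pool.Agent.Results.MP_5968e7_ag.OneFieldSimpleObjects

open Pool.Agent.TH133.XT

/-- **The cohomological dimension is less than `m` over `k` if and only if it is less than `m` over
`ℚ`, if and only if `Ext ^ m(1, V) = 0` for the simple objects `V` of weight `≤ 0` over `ℚ`.** -/
theorem result {A : Type u} [Category.{v} A] [Abelian A] [HasExt.{w} A] [MonoidalCategory A]
    [LeftRigidCategory A] [∀ V : A, (tensorLeft V).Additive]
    [∀ V : A, PreservesFiniteLimits (tensorLeft V)]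
    [∀ V : A, PreservesFiniteColimits (tensorLeft V)] {T F : A → Prop} (hTF : IsWeightCut T F)
    (h1 : T (𝟙_ A)) (hfin : ∀ V : A, FiniteLength V)
    {B : Type u'} [Category.{v'} B] [Abelian B] [HasExt.{w'} B] (R : A ⥤ B) (I : B ⥤ A)
    [R.Additive] [PreservesFiniteLimits R] [PreservesFiniteColimits R] [I.Additive]
    [PreservesFiniteLimits I] [PreservesFiniteColimits I] (hRI : HasTransfer R I) (m : ℕ) :
    [VanishFrom.{w'} B m, VanishFrom.{w} A m, SimpleVanish.{w} A T m].TFAE :=
  vanish_tfae hTF h1 hfin R I hRI m

end Pool.Agent.Results.MP_5968e7_ag.OneFieldSimpleObjects
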